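import Pool.Agent.L0h29.AL.ArtDefs5
import Pool.Agent.L0h29.AL.CEX

/-!
# Module FCC of project AL (part 4): bounded areas give a solution of the word problem
-/

set_option autoImplicit false

namespace Pool.Agent.L0h57.AL

open Pool.Agent.K7.H20.AW Pool.Agent.K7.H87.FJ6 Pool.Agent.L0h29.AL

/-! ### copied from `Pool/Agent/L0h29/AL/CUN.lean` (which cannot be imported together with
`ArtDefs3`) -/

section val

variable {B : Type*} (M : CoxeterMatrix B)

theorem lval_cons' (p : B × Bool) (w : List (B × Bool)) :
    lval M (p :: w) = (if p.2 then g M p.1 else (g M p.1)⁻¹) * lval M w := rfl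

end val

section conv

variable {n : ℕ}

theorem fval_iff (M : CoxeterMatrix (Fin n)) (w : List (Fin n × Bool)) :
    fval M w = 1 ↔ lval M w = 1 := by
  have h1 : ∀ w, toArt M (fval M w) = lval M w := by
    intro w
    induction w with
    | nil => exact map_one _
    | cons p w ih =>
      have e : fval M (p :: w) = (if p.2 then (PresentedGroup.of p.1 : ArtinGroup M) else
        (PresentedGroup.of p.1 : ArtinGroup M)⁻¹) * fval M w := rfl
      rw [e, map_mul, ih, lval_cons']
      congr 1
      have hg : toArt M (PresentedGroup.of p.1) = g M p.1 := by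
        unfold toArt
        exact PresentedGroup.toGroup.of _
      cases p.2
      · simp only [Bool.false_eq_true, if_false, map_inv, hg]
      · simp only [if_true, hg]
  have h2 : ∀ w, ofArt M (lval M w) = fval M w := by
    intro w
    induction w with
    | nil => exact map_one _
    | cons p w ih =>
      have e : fval M (p :: w) = (if p.2 then (PresentedGroup.of p.1 : ArtinGroup M) else
        (PresentedGroup.of p.1 : ArtinGroup M)⁻¹) * fval M w := rfl
      rw [e, lval_cons', map_mul, ih]
      congr 1
      have hg : ofArt M (g M p.1) = PresentedGroup.of p.1 := by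
        unfold ofArt
        exact Sh.lift_gen _ _ _ _
      cases p.2
      · simp only [Bool.false_eq_true, if_false, map_inv, hg]
      · simp only [if_true, hg]
  constructor
  · intro h
    rw [← h1, h, map_one]
  · intro h
    rw [← h2, h, map_one]

end conv

section prim

variable {β : Type} [Primcodable β]

theorem pr_inw : Primrec (inw : List (β × Bool) → List (β × Bool)) := by
  unfold inw
  refine Primrec.list_reverse.comp (Primrec.list_map Primrec.id ?_)
  exact Primrec.pair (Primrec.fst.comp Primrec.snd)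
    (Primrec.not.comp (Primrec.snd.comp Primrec.snd))

omit [Primcodable β] in
theorem aw_eq (m : ℕ) : ∀ i j : β, aw m i j =
    (List.range m).map fun t => (bif t.bodd then j else i, true) := by
  induction m with
  | zero => intro i j; rfl
  | succ m ih =>
    intro i j
    rw [aw, ih j i, List.range_succ_eq_map, List.map_cons, List.map_map]
    congr 1
    apply List.map_congr_left
    intro t _
    simp only [Function.comp_apply, Nat.bodd_succ]
    cases t.bodd <;> rfl

theorem pr_aw : Primrec (fun x : ℕ × β × β => aw x.1 x.2.1 x.2.2) := by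
  have h : Primrec (fun x : ℕ × β × β => (List.range x.1).map fun t =>
      ((bif t.bodd then x.2.2 else x.2.1), true)) := by
    refine Primrec.list_map (Primrec.list_range.comp Primrec.fst) ?_
    refine Primrec.pair (Primrec.cond (Primrec.nat_bodd.comp Primrec.snd) ?_ ?_) (Primrec.const true)
    · exact Primrec.snd.comp (Primrec.snd.comp Primrec.fst)
    · exact Primrec.fst.comp (Primrec.snd.comp Primrec.fst)
  exact h.of_eq fun x => (aw_eq _ _ _).symm

theorem pr_rw : Primrec (fun x : ℕ × β × β × Bool => rw' x.1 x.2.1 x.2.2.1 x.2.2.2) := by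
  have h1 : Primrec (fun x : ℕ × β × β × Bool => aw x.1 x.2.1 x.2.2.1) :=
    pr_aw.comp (Primrec.pair Primrec.fst (Primrec.pair (Primrec.fst.comp Primrec.snd)
      (Primrec.fst.comp (Primrec.snd.comp Primrec.snd))))
  have h2 : Primrec (fun x : ℕ × β × β × Bool => aw x.1 x.2.2.1 x.2.1) :=
    pr_aw.comp (Primrec.pair Primrec.fst (Primrec.pair
      (Primrec.fst.comp (Primrec.snd.comp Primrec.snd)) (Primrec.fst.comp Primrec.snd)))
  have h3 : Primrec (fun x : ℕ × β × β × Bool => bif x.2.2.2 then
      aw x.1 x.2.1 x.2.2.1 ++ inw (aw x.1 x.2.2.1 x.2.1) else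
      aw x.1 x.2.2.1 x.2.1 ++ inw (aw x.1 x.2.1 x.2.2.1)) :=
    Primrec.cond (Primrec.snd.comp (Primrec.snd.comp Primrec.snd))
      (Primrec.list_append.comp h1 (pr_inw.comp h2)) (Primrec.list_append.comp h2 (pr_inw.comp h1))
  refine h3.of_eq fun x => ?_
  unfold rw'
  cases x.2.2.2 <;> rfl

theorem pr_exw {α : Type} [Primcodable α] (lab : α → β → β → ℕ)
    (h : Primrec (fun x : α × β × β => lab x.1 x.2.1 x.2.2)) :
    Primrec₂ (fun (a : α) (c : List (List (β × Bool) × β × β × Bool)) => exw (lab a) c) := by
  unfold exw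
  refine Primrec.list_flatMap Primrec.snd ?_
  have hu : Primrec (fun x : (α × List (List (β × Bool) × β × β × Bool)) ×
      (List (β × Bool) × β × β × Bool) => x.2.1) := Primrec.fst.comp Primrec.snd
  have hi : Primrec (fun x : (α × List (List (β × Bool) × β × β × Bool)) ×
      (List (β × Bool) × β × β × Bool) => x.2.2.1) :=
    Primrec.fst.comp (Primrec.snd.comp Primrec.snd)
  have hj : Primrec (fun x : (α × List (List (β × Bool) × β × β × Bool)) ×
      (List (β × Bool) × β × β × Bool) => x.2.2.2.1) :=
    Primrec.fst.comp (Primrec.snd.comp (Primrec.snd.comp Primrec.snd))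
  have hb : Primrec (fun x : (α × List (List (β × Bool) × β × β × Bool)) ×
      (List (β × Bool) × β × β × Bool) => x.2.2.2.2) :=
    Primrec.snd.comp (Primrec.snd.comp (Primrec.snd.comp Primrec.snd))
  have ha : Primrec (fun x : (α × List (List (β × Bool) × β × β × Bool)) ×
      (List (β × Bool) × β × β × Bool) => x.1.1) := Primrec.fst.comp Primrec.fst
  have hl : Primrec (fun x : (α × List (List (β × Bool) × β × β × Bool)) ×
      (List (β × Bool) × β × β × Bool) => lab x.1.1 x.2.2.1 x.2.2.2.1) :=
    h.comp (Primrec.pair ha (Primrec.pair hi hj))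
  have hr : Primrec (fun x : (α × List (List (β × Bool) × β × β × Bool)) ×
      (List (β × Bool) × β × β × Bool) =>
        rw' (lab x.1.1 x.2.2.1 x.2.2.2.1) x.2.2.1 x.2.2.2.1 x.2.2.2.2) :=
    pr_rw.comp (Primrec.pair hl (Primrec.pair hi (Primrec.pair hj hb)))
  exact Primrec.list_append.comp (Primrec.list_append.comp hu hr) (pr_inw.comp hu)

/-- enumeration of the lists of conjugates -/
theorem enum (G : ℕ → List β) (hG : Primrec G) :
    ∃ E : ℕ → List (List (List (β × Bool) × β × β × Bool)), Primrec E ∧ ∀ N c, c ∈ E N ↔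
      c.length ≤ N ∧ ∀ p ∈ c, (p.1.length ≤ N ∧ ∀ a ∈ p.1, a.1 ∈ G N) ∧ p.2.1 ∈ G N ∧
        p.2.2.1 ∈ G N := by
  have h1 : Primrec (fun N => (G N).flatMap fun i => [(i, true), (i, false)]) := by
    refine Primrec.list_flatMap hG ?_
    have ht : Primrec (fun x : ℕ × β => (x.2, true)) := Primrec.pair Primrec.snd (Primrec.const _)
    have hf : Primrec (fun x : ℕ × β => (x.2, false)) := Primrec.pair Primrec.snd (Primrec.const _)
    exact Primrec.list_cons.comp ht (Primrec.list_cons.comp hf (Primrec.const []))
  obtain ⟨E1, hE1, hm1⟩ := cls (β × Bool) _ h1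
  have hm1' : ∀ N l, l ∈ E1 N ↔ l.length ≤ N ∧ ∀ a ∈ l, a.1 ∈ G N := by
    intro N l
    rw [hm1]
    apply and_congr Iff.rfl
    apply forall₂_congr
    intro a _
    rw [List.mem_flatMap]
    constructor
    · rintro ⟨i, hi, ha⟩
      simp only [List.mem_cons, List.not_mem_nil, or_false] at ha
      rcases ha with rfl | rfl <;> exact hi
    · intro ha
      refine ⟨a.1, ha, ?_⟩
      rcases a with ⟨i, b⟩
      cases b <;> simp
  have h2 : Primrec (fun N => (E1 N).flatMap fun u => (G N).flatMap fun i => (G N).flatMap fun j =>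
      [(u, i, j, true), (u, i, j, false)]) := by
    refine Primrec.list_flatMap hE1 (Primrec.list_flatMap (hG.comp Primrec.fst)
      (Primrec.list_flatMap (hG.comp (Primrec.fst.comp Primrec.fst)) ?_))
    have hu : Primrec (fun x : ((ℕ × List (β × Bool)) × β) × β => x.1.1.2) :=
      Primrec.snd.comp (Primrec.fst.comp Primrec.fst)
    have hi : Primrec (fun x : ((ℕ × List (β × Bool)) × β) × β => x.1.2) :=
      Primrec.snd.comp Primrec.fst
    have hj : Primrec (fun x : ((ℕ × List (β × Bool)) × β) × β => x.2) := Primrec.snd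
    exact Primrec.list_cons.comp (Primrec.pair hu (Primrec.pair hi (Primrec.pair hj
      (Primrec.const true)))) (Primrec.list_cons.comp (Primrec.pair hu (Primrec.pair hi
      (Primrec.pair hj (Primrec.const false)))) (Primrec.const []))
  obtain ⟨E2, hE2, hm2⟩ := cls (List (β × Bool) × β × β × Bool) _ h2
  refine ⟨E2, hE2, ?_⟩
  intro N c
  rw [hm2]
  apply and_congr Iff.rfl
  apply forall₂_congr
  intro p _
  rw [List.mem_flatMap]
  constructor
  · rintro ⟨u, hu, h⟩
    rw [List.mem_flatMap] at h
    obtain ⟨i, hi, h⟩ := h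
    rw [List.mem_flatMap] at h
    obtain ⟨j, hj, h⟩ := h
    simp only [List.mem_cons, List.not_mem_nil, or_false] at h
    rcases h with rfl | rfl <;> exact ⟨(hm1' _ _).1 hu, hi, hj⟩
  · rintro ⟨hu, hi, hj⟩
    refine ⟨p.1, (hm1' _ _).2 hu, ?_⟩
    rw [List.mem_flatMap]
    refine ⟨p.2.1, hi, ?_⟩
    rw [List.mem_flatMap]
    refine ⟨p.2.2.1, hj, ?_⟩
    rcases p with ⟨u, i, j, b⟩
    cases b <;> simp

end prim



/-- one step of the reduction -/
def st {β : Type} [DecidableEq β] (x : β × Bool) (r : List (β × Bool)) : List (β × Bool) :=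
  List.casesOn r [x] fun y t => if x.1 = y.1 ∧ x.2 = !y.2 then t else x :: y :: t

theorem reduce_eq {β : Type} [DecidableEq β] (l : List (β × Bool)) :
    FreeGroup.reduce l = l.foldr st [] := by
  induction l with
  | nil => rfl
  | cons x l ih =>
    rw [List.foldr_cons, ← ih, FreeGroup.reduce.cons]
    rfl

theorem pr_st {β : Type} [Primcodable β] [DecidableEq β] :
    Primrec₂ (st : β × Bool → List (β × Bool) → List (β × Bool)) := by
  have hx : Primrec (fun z : (((β × Bool) × List (β × Bool)) × ((β × Bool) × List (β × Bool))) =>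
      z.1.1) := Primrec.fst.comp Primrec.fst
  have hy : Primrec (fun z : (((β × Bool) × List (β × Bool)) × ((β × Bool) × List (β × Bool))) =>
      z.2.1) := Primrec.fst.comp Primrec.snd
  have ht : Primrec (fun z : (((β × Bool) × List (β × Bool)) × ((β × Bool) × List (β × Bool))) =>
      z.2.2) := Primrec.snd.comp Primrec.snd
  have h1 : PrimrecPred (fun z : (((β × Bool) × List (β × Bool)) ×
      ((β × Bool) × List (β × Bool))) => z.1.1.1 = z.2.1.1 ∧ z.1.1.2 = !z.2.1.2) :=
    PrimrecPred.and (Primrec.eq.comp (Primrec.fst.comp hx) (Primrec.fst.comp hy))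
      (Primrec.eq.comp (Primrec.snd.comp hx) (Primrec.not.comp (Primrec.snd.comp hy)))
  have h2 : Primrec₂ (fun (p : (β × Bool) × List (β × Bool)) (q : (β × Bool) × List (β × Bool)) =>
      if p.1.1 = q.1.1 ∧ p.1.2 = !q.1.2 then q.2 else p.1 :: q.1 :: q.2) :=
    Primrec.ite h1 ht (Primrec.list_cons.comp hx (Primrec.list_cons.comp hy ht))
  have h3 := Primrec.list_casesOn (f := fun p : (β × Bool) × List (β × Bool) => p.2)
    (g := fun p : (β × Bool) × List (β × Bool) => [p.1])
    (h := fun (p : (β × Bool) × List (β × Bool)) (q : (β × Bool) × List (β × Bool)) =>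
      if p.1.1 = q.1.1 ∧ p.1.2 = !q.1.2 then q.2 else p.1 :: q.1 :: q.2)
    Primrec.snd (Primrec.list_cons.comp Primrec.fst (Primrec.const [])) h2
  exact h3

theorem pr_reduce {β : Type} [Primcodable β] [DecidableEq β] :
    Primrec (FreeGroup.reduce : List (β × Bool) → List (β × Bool)) := by
  have h : Primrec (fun l : List (β × Bool) => l.foldr (fun b s => st b s) []) :=
    Primrec.list_foldr (h := fun _ (p : (β × Bool) × List (β × Bool)) => st p.1 p.2) Primrec.id
      (Primrec.const []) (pr_st.comp (Primrec.fst.comp Primrec.snd)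
        (Primrec.snd.comp Primrec.snd))
  exact h.of_eq fun l => (reduce_eq l).symm

theorem mk_iff {β : Type} [DecidableEq β] (u v : List (β × Bool)) :
    FreeGroup.mk u = FreeGroup.mk v ↔ FreeGroup.reduce u = FreeGroup.reduce v :=
  ⟨fun h => FreeGroup.reduce.sound h, fun h => FreeGroup.reduce.exact h⟩

/-- FCC: bounded areas give a solution of the word problem. -/
theorem fcc (hFCA : S_FCA) (hARE : S_ARE.{0}) : S_FCC := by
  intro n M hM
  obtain ⟨Θ, hΘ, hA⟩ := hFCA n M hM
  obtain ⟨E, hE, hm⟩ := enum (β := Fin n) (fun _ => List.finRange n) (Primrec.const _)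
  let f : List (Fin n × Bool) → Bool := fun w => (E (Θ w.length)).any fun c =>
    decide (FreeGroup.reduce w = FreeGroup.reduce (exw (fun i j => M i j) c))
  have hf : Computable f := by
    refine cex _ _ (fun w : List (Fin n × Bool) => E (Θ w.length))
      (fun w c => decide (FreeGroup.reduce w = FreeGroup.reduce (exw (fun i j => M i j) c))) ?_ ?_
    · exact (hE.comp (hΘ.comp Primrec.list_length)).to_comp
    · have hlab : Primrec (fun x : List (Fin n × Bool) × Fin n × Fin n => M x.2.1 x.2.2) :=
        (Primrec.dom_finite (fun y : Fin n × Fin n => M y.1 y.2)).comp Primrec.snd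
      have h1 := pr_exw (β := Fin n) (fun _ : List (Fin n × Bool) => fun i j => M i j) hlab
      have h2 : Primrec₂ (fun (w : List (Fin n × Bool))
          (c : List (List (Fin n × Bool) × Fin n × Fin n × Bool)) =>
          decide (FreeGroup.reduce w = FreeGroup.reduce (exw (fun i j => M i j) c))) :=
        (Primrec.eq.comp (pr_reduce.comp Primrec.fst) (pr_reduce.comp h1)).decide
      exact h2.to_comp
  have hiff : ∀ w, f w = true ↔ fval M w = 1 := by
    intro w
    rw [fval_iff]
    show (List.any _ _) = true ↔ _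
    rw [List.any_eq_true]
    constructor
    · rintro ⟨c, hc, hd⟩
      have hd' := of_decide_eq_true hd
      have hc' := (hm _ _).1 hc
      exact (hARE (Fin n) M).1 w (Θ w.length)
        ⟨c, hc'.1, fun p hp => (hc'.2 p hp).1.1, (mk_iff _ _).2 hd'⟩
    · intro hw
      obtain ⟨c, hc1, hc2, hc3⟩ := hA w hw
      refine ⟨c, (hm _ _).2 ⟨hc1, fun p hp => ⟨⟨hc2 p hp, fun a _ => List.mem_finRange _⟩,
        List.mem_finRange _, List.mem_finRange _⟩⟩, ?_⟩
      apply decide_eq_true
      exact (mk_iff _ _).1 hc3
  have hD : DecidablePred (fun w : List (Fin n × Bool) => fval M w = 1) :=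
    fun w => decidable_of_iff _ (hiff w)
  refine ⟨hD, hf.of_eq fun w => ?_⟩
  rw [Bool.eq_iff_iff]
  exact (hiff w).trans (@decide_eq_true_iff _ (hD w)).symm

end Pool.Agent.L0h57.AL
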